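import Mathlib
import Pool.Agent.H812R5.Stmts
import Pool.Agent.H812R5.Main
import Pool.Agent.H812R5.Hex
import Pool.Agent.H812R5.Pig
import Pool.Agent.H812R5.GE
import Pool.Agent.H812R5.G
import Pool.Agent.H812R5.F

/-!
# The weak hyperbolic dimension of Grigorchuk's group and of Thompson's group F is infinite

General criterion: if for every `n` a group contains `n` pairwise commuting finite sets, each of
superpolynomial growth, then its weak hyperbolic dimension is infinite. Proof: by the
`n`-dimensional Hex lemma every grid spanned by words in `n` commuting sets has a long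
monochromatic path, which stays in one piece; a pigeonhole argument then gives superpolynomially
many points of one piece in a ball of linear radius, against large scale doubling.
-/

namespace Pool.Agent.Results.MP_220364_al.WHyperdimInfinite

open H812R5

theorem result :
    (∀ (G : Type) [Group G] (S : Set G), S.Finite → SuperPoly (Subgroup.closure S) →
      ∀ n, ¬ WHyperdimLE (wd S) n) ∧
    ((∃ a b c d : Equiv.Perm Seq, IsGrig a b c d) ∧
      ∀ a b c d : Equiv.Perm Seq, IsGrig a b c d → ∀ S : Set (Equiv.Perm Seq), S.Finite →
        Subgroup.closure S = Subgroup.closure {a, b, c, d} → ∀ n, ¬ WHyperdimLE (wd S) n) ∧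
    (∀ S : Set TF, S.Finite → Subgroup.closure S = ⊤ → ∀ n, ¬ WHyperdimLE (wd S) n) := by
  have h1 : TaskMain := Main.main Hex.taskHex Pig.taskPig
  obtain ⟨h2, h3, h4⟩ := final h1 GE.taskGE G.taskG F.taskF
  exact ⟨h1, ⟨h2, h3⟩, h4⟩

end Pool.Agent.Results.MP_220364_al.WHyperdimInfinite
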